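import Mathlib

set_option autoImplicit false

namespace Pool.Agent.H312.Nu

open Finset

/-- parity of a finite set through an involution -/
theorem card_modTwo_of_involution {α : Type*} [DecidableEq α] (s : Finset α) (f : α → α)
    (hf : ∀ a ∈ s, f a ∈ s) (hff : ∀ a ∈ s, f (f a) = a) :
    (s.card : ZMod 2) = ((s.filter (fun a => f a = a)).card : ZMod 2) := by
  classical
  have h1 : ∑ a ∈ s.filter (fun a => ¬ f a = a), (1 : ZMod 2) = 0 := by
    refine Finset.sum_involution (fun a _ => f a) ?_ ?_ ?_ ?_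
    · intro a ha; decide
    · intro a ha _
      exact (mem_filter.mp ha).2
    · intro a ha
      obtain ⟨ha1, ha2⟩ := mem_filter.mp ha
      refine mem_filter.mpr ⟨hf a ha1, ?_⟩
      intro h
      rw [hff a ha1] at h
      exact ha2 h.symm
    · intro a ha
      exact hff a (mem_filter.mp ha).1
  have h2 : (s.card : ZMod 2) = ∑ a ∈ s, (1 : ZMod 2) := by simp
  rw [h2, ← Finset.sum_filter_add_sum_filter_not s (fun a => f a = a), h1, add_zero]
  simp

/-- number of divisors below the square root -/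
def hh (n : ℕ) : ℕ := (n.divisors.filter (fun x => x * x < n)).card

/-- indicator of squares -/
def gg (n : ℕ) : ℕ := if IsSquare n then 1 else 0

theorem card_divisors_eq (n : ℕ) (hn : n ≠ 0) : n.divisors.card = gg n + 2 * hh n := by
  classical
  have h1 : (n.divisors.filter (fun x => n < x * x)).card
      = (n.divisors.filter (fun x => x * x < n)).card := by
    refine Finset.card_bij' (fun x _ => n / x) (fun x _ => n / x) ?_ ?_ ?_ ?_
    · intro x hx
      obtain ⟨hx1, hx2⟩ := mem_filter.mp hx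
      have hd := (Nat.mem_divisors.mp hx1).1
      obtain ⟨y, hy⟩ := hd
      have hx0 : 0 < x := Nat.pos_of_ne_zero (by rintro rfl; simp at hy; exact hn hy)
      have hxy : n / x = y := by rw [hy]; exact Nat.mul_div_cancel_left y hx0
      refine mem_filter.mpr ⟨Nat.mem_divisors.mpr ⟨⟨x, ?_⟩, hn⟩, ?_⟩
      · simp only [hxy]; rw [hy]; ring
      · simp only [hxy]
        rw [hy] at hx2 ⊢
        have : y < x := by
          by_contra hc; push Not at hc; nlinarith
        have hy0 : 0 < y := Nat.pos_of_ne_zero (by rintro rfl; simp at hy; exact hn hy)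
        nlinarith
    · intro x hx
      obtain ⟨hx1, hx2⟩ := mem_filter.mp hx
      have hd := (Nat.mem_divisors.mp hx1).1
      obtain ⟨y, hy⟩ := hd
      have hx0 : 0 < x := Nat.pos_of_ne_zero (by rintro rfl; simp at hy; exact hn hy)
      have hxy : n / x = y := by rw [hy]; exact Nat.mul_div_cancel_left y hx0
      refine mem_filter.mpr ⟨Nat.mem_divisors.mpr ⟨⟨x, ?_⟩, hn⟩, ?_⟩
      · simp only [hxy]; rw [hy]; ring
      · simp only [hxy]
        rw [hy] at hx2 ⊢
        have : x < y := by
          by_contra hc; push Not at hc; nlinarith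
        nlinarith
    · intro x hx
      obtain ⟨hx1, hx2⟩ := mem_filter.mp hx
      exact Nat.div_div_self (Nat.mem_divisors.mp hx1).1 hn
    · intro x hx
      obtain ⟨hx1, hx2⟩ := mem_filter.mp hx
      exact Nat.div_div_self (Nat.mem_divisors.mp hx1).1 hn
  have h2 : (n.divisors.filter (fun x => x * x = n)).card = gg n := by
    unfold gg
    split_ifs with h
    · obtain ⟨r, hr⟩ := h
      rw [Finset.card_eq_one]
      refine ⟨r, ?_⟩
      ext x
      simp only [mem_filter, Nat.mem_divisors, mem_singleton]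
      constructor
      · rintro ⟨-, hx⟩
        rw [hr] at hx
        exact Nat.mul_self_inj.mp hx
      · rintro rfl
        exact ⟨⟨⟨x, hr⟩, hn⟩, hr.symm⟩
    · rw [Finset.card_eq_zero, Finset.filter_eq_empty_iff]
      intro x _ hx
      exact h ⟨x, hx.symm⟩
  have h3 : n.divisors.card = (n.divisors.filter (fun x => x * x < n)).card
      + ((n.divisors.filter (fun x => x * x = n)).card
        + (n.divisors.filter (fun x => n < x * x)).card) := by
    rw [← Finset.card_union_of_disjoint, ← Finset.card_union_of_disjoint]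
    · congr 1
      ext x
      simp only [mem_union, mem_filter]
      constructor
      · intro hx
        rcases lt_trichotomy (x * x) n with h | h | h
        · exact Or.inl ⟨hx, h⟩
        · exact Or.inr (Or.inl ⟨hx, h⟩)
        · exact Or.inr (Or.inr ⟨hx, h⟩)
      · rintro (h | h | h) <;> exact h.1
    · rw [Finset.disjoint_left]
      intro x hx hx'
      simp only [mem_union, mem_filter] at hx hx'
      rcases hx' with h | h
      · omega
      · omega
    · rw [Finset.disjoint_left]
      intro x hx hx'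
      simp only [mem_filter] at hx hx'
      omega
  rw [h3, h2, h1]
  unfold hh
  ring

/-- the Zagier set -/
noncomputable def zset (n : ℕ) : Finset (ℤ × ℤ × ℤ) :=
  ((Icc (1:ℤ) n) ×ˢ (Icc (1:ℤ) n) ×ˢ (Icc (1:ℤ) n)).filter
    (fun t => t.1 ^ 2 + 4 * t.2.1 * t.2.2 = n)

theorem mem_zset {n : ℕ} {t : ℤ × ℤ × ℤ} :
    t ∈ zset n ↔ 1 ≤ t.1 ∧ 1 ≤ t.2.1 ∧ 1 ≤ t.2.2 ∧ t.1 ^ 2 + 4 * t.2.1 * t.2.2 = n := by
  obtain ⟨x, y, z⟩ := t
  simp only [zset, mem_filter, mem_product, mem_Icc]
  constructor
  · rintro ⟨⟨⟨h1, -⟩, ⟨h2, -⟩, ⟨h3, -⟩⟩, h4⟩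
    exact ⟨h1, h2, h3, h4⟩
  · rintro ⟨h1, h2, h3, h4⟩
    refine ⟨⟨⟨h1, ?_⟩, ⟨h2, ?_⟩, ⟨h3, ?_⟩⟩, h4⟩
    · nlinarith [mul_pos (by linarith : (0:ℤ) < y) (by linarith : (0:ℤ) < z)]
    · nlinarith [mul_nonneg (by linarith : (0:ℤ) ≤ y) (by linarith : (0:ℤ) ≤ z - 1)]
    · nlinarith [mul_nonneg (by linarith : (0:ℤ) ≤ z) (by linarith : (0:ℤ) ≤ y - 1)]

noncomputable def zmap (t : ℤ × ℤ × ℤ) : ℤ × ℤ × ℤ :=
  if t.1 + t.2.2 < t.2.1 then (t.1 + 2 * t.2.2, t.2.2, t.2.1 - t.1 - t.2.2)
  else if 2 * t.2.1 < t.1 then (t.1 - 2 * t.2.1, t.1 + t.2.2 - t.2.1, t.2.1)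
  else (2 * t.2.1 - t.1, t.2.1, t.1 + t.2.2 - t.2.1)

theorem zmap_mem {n : ℕ} (hn : n % 4 = 1) (hsq : ¬ IsSquare n) (t : ℤ × ℤ × ℤ)
    (ht : t ∈ zset n) : zmap t ∈ zset n := by
  rw [mem_zset] at ht ⊢
  obtain ⟨x, y, z⟩ := t
  simp only at ht
  obtain ⟨h1, h2, h3, h4⟩ := ht
  have hb1 : x + z ≠ y := by
    intro h
    apply hsq
    refine ⟨(y + z).natAbs, ?_⟩
    zify
    rw [abs_mul_abs_self, ← h4]
    rw [← h]
    ring
  have hb2 : 2 * y ≠ x := by
    intro h
    have : (n : ℤ) = 2 * (2 * y ^ 2 + 2 * y * z) := by rw [← h4, ← h]; ring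
    omega
  unfold zmap
  simp only
  split_ifs with c1 c2
  · refine ⟨by simp only; linarith, by simp only; linarith, by simp only; linarith, ?_⟩
    simp only
    rw [← h4]; ring
  · refine ⟨by simp only; linarith, by simp only; linarith, by simp only; linarith, ?_⟩
    simp only
    rw [← h4]; ring
  · refine ⟨?_, by simp only; linarith, ?_, ?_⟩
    · simp only
      push Not at c2
      rcases lt_or_eq_of_le c2 with h | h
      · linarith
      · exact absurd h.symm hb2
    · simp only
      push Not at c1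
      rcases lt_or_eq_of_le c1 with h | h
      · linarith
      · exact absurd h.symm hb1
    · simp only
      rw [← h4]; ring

theorem zmap_zmap {n : ℕ} (t : ℤ × ℤ × ℤ) (ht : t ∈ zset n) : zmap (zmap t) = t := by
  rw [mem_zset] at ht
  obtain ⟨x, y, z⟩ := t
  simp only at ht
  obtain ⟨h1, h2, h3, h4⟩ := ht
  have key : ∀ a b c : ℤ, zmap (a, b, c) = if a + c < b then (a + 2 * c, c, b - a - c)
      else if 2 * b < a then (a - 2 * b, a + c - b, b)
      else (2 * b - a, b, a + c - b) := by
    intro a b c; rfl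
  by_cases c1 : x + z < y
  · have e : zmap (x, y, z) = (x + 2 * z, z, y - x - z) := by rw [key, if_pos c1]
    rw [e, key, if_neg (by omega), if_pos (by omega)]
    simp only [Prod.mk.injEq]
    refine ⟨?_, ?_, ?_⟩ <;> first | trivial | ring
  · by_cases c2 : 2 * y < x
    · have e : zmap (x, y, z) = (x - 2 * y, x + z - y, y) := by
        rw [key, if_neg c1, if_pos c2]
      rw [e, key, if_pos (by omega)]
      simp only [Prod.mk.injEq]
      refine ⟨?_, ?_, ?_⟩ <;> first | trivial | ring
    · have e : zmap (x, y, z) = (2 * y - x, y, x + z - y) := by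
        rw [key, if_neg c1, if_neg c2]
      rw [e, key, if_neg (by omega), if_neg (by omega)]
      simp only [Prod.mk.injEq]
      refine ⟨?_, ?_, ?_⟩ <;> first | trivial | ring

/-- Zagier's parity: for `n ≡ 1 mod 4` non-square. -/
theorem hh_parity {n : ℕ} (hn : n % 4 = 1) (hsq : ¬ IsSquare n) :
    (hh n : ZMod 2) =
      ((((Icc 1 n) ×ˢ (Icc 1 n)).filter (fun t : ℕ × ℕ => t.1 ^ 2 + 4 * t.2 ^ 2 = n)).card : ZMod 2) := by
  classical
  have e1 := card_modTwo_of_involution (zset n) zmap (zmap_mem hn hsq)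
    (fun t ht => zmap_zmap t ht)
  have e2 := card_modTwo_of_involution (zset n) (fun t => (t.1, t.2.2, t.2.1))
    (by
      intro t ht
      rw [mem_zset] at ht ⊢
      obtain ⟨h1, h2, h3, h4⟩ := ht
      refine ⟨h1, h3, h2, ?_⟩
      simp only
      rw [← h4]; ring)
    (by intro t _; rfl)
  have c1 : ((zset n).filter (fun a => zmap a = a)).card = hh n := by
    unfold hh
    symm
    refine Finset.card_bij (fun x _ => ((x : ℤ), (x : ℤ), (((n / x : ℕ) : ℤ) - x) / 4)) ?_ ?_ ?_
    · intro x hx
      obtain ⟨hx1, hx2⟩ := mem_filter.mp hx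
      obtain ⟨⟨y, hy⟩, hn0⟩ := Nat.mem_divisors.mp hx1
      have hx0 : 0 < x := Nat.pos_of_ne_zero (by rintro rfl; simp at hy; omega)
      have hxy : n / x = y := by rw [hy]; exact Nat.mul_div_cancel_left y hx0
      have hlt : x < y := by
        rw [hy] at hx2
        by_contra hc; push Not at hc; nlinarith
      -- 4 | y - x
      have h4 : (4 : ℤ) ∣ (y : ℤ) - x := by
        have : (x * y) % 4 = 1 := by rw [← hy]; exact hn
        have hxm : x % 4 < 4 := Nat.mod_lt _ (by norm_num)
        have hym : y % 4 < 4 := Nat.mod_lt _ (by norm_num)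
        rw [Nat.mul_mod] at this
        interval_cases hx4 : (x % 4) <;> interval_cases hy4 : (y % 4) <;> simp at this <;> omega
      obtain ⟨q, hq⟩ := h4
      rw [mem_filter, mem_zset]
      simp only [hxy, hq]
      have hqq : (4 * q) / 4 = q := Int.mul_ediv_cancel_left q (by norm_num)
      rw [hqq]
      have hq1 : 1 ≤ q := by
        have : (x : ℤ) < y := by exact_mod_cast hlt
        omega
      refine ⟨⟨by exact_mod_cast hx0, by exact_mod_cast hx0, hq1, ?_⟩, ?_⟩
      · have : (n : ℤ) = x * y := by exact_mod_cast hy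
        rw [this]
        have hy' : (y : ℤ) = x + 4 * q := by linarith
        rw [hy']; ring
      · unfold zmap
        simp only
        rw [if_neg (by linarith), if_neg (by
          have : (0:ℤ) < x := by exact_mod_cast hx0
          linarith)]
        simp only [Prod.mk.injEq]
        refine ⟨by ring, trivial, by ring⟩
    · intro x _ y _ h
      simp only [Prod.mk.injEq] at h
      exact_mod_cast h.1
    · rintro ⟨x, y, z⟩ ht
      rw [mem_filter, mem_zset] at ht
      simp only at ht
      obtain ⟨⟨h1, h2, h3, h4⟩, h5⟩ := ht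
      have hxy : x = y ∧ True := by
        unfold zmap at h5
        simp only at h5
        split_ifs at h5 with c1 c2
        · simp only [Prod.mk.injEq] at h5; exfalso; linarith [h5.1]
        · simp only [Prod.mk.injEq] at h5; exfalso; linarith [h5.1]
        · simp only [Prod.mk.injEq] at h5; exact ⟨by linarith [h5.1], trivial⟩
      obtain ⟨rfl, -⟩ := hxy
      lift x to ℕ using (by linarith) with x0
      lift z to ℕ using (by linarith) with z0
      have hn' : n = x0 * (x0 + 4 * z0) := by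
        have : (n : ℤ) = (x0 * (x0 + 4 * z0) : ℕ) := by
          push_cast; rw [← h4]; ring
        exact_mod_cast this
      have hx0 : 0 < x0 := by omega
      have hz0 : 0 < z0 := by omega
      have hdiv : n / x0 = x0 + 4 * z0 := by rw [hn']; exact Nat.mul_div_cancel_left _ hx0
      refine ⟨x0, ?_, ?_⟩
      · refine mem_filter.mpr ⟨Nat.mem_divisors.mpr ⟨⟨_, hn'⟩, by omega⟩, ?_⟩
        rw [hn']
        nlinarith
      · simp only [Prod.mk.injEq, true_and]
        rw [hdiv]
        push_cast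
        have : ((x0 : ℤ) + 4 * z0 - x0) = 4 * z0 := by ring
        rw [this]
        exact Int.mul_ediv_cancel_left _ (by norm_num)
  have c2 : ((zset n).filter (fun a => (fun t : ℤ × ℤ × ℤ => (t.1, t.2.2, t.2.1)) a = a)).card
      = (((Icc 1 n) ×ˢ (Icc 1 n)).filter (fun t : ℕ × ℕ => t.1 ^ 2 + 4 * t.2 ^ 2 = n)).card := by
    symm
    refine Finset.card_bij (fun t _ => ((t.1 : ℤ), (t.2 : ℤ), (t.2 : ℤ))) ?_ ?_ ?_
    · rintro ⟨x, y⟩ ht
      simp only [mem_filter, mem_product, mem_Icc] at ht
      obtain ⟨⟨⟨h1, -⟩, ⟨h2, -⟩⟩, h3⟩ := ht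
      rw [mem_filter, mem_zset]
      simp only
      refine ⟨⟨by exact_mod_cast h1, by exact_mod_cast h2, by exact_mod_cast h2, ?_⟩, trivial⟩
      rw [← h3]; push_cast; ring
    · rintro ⟨x, y⟩ _ ⟨x', y'⟩ _ h
      simp only [Prod.mk.injEq] at h
      ext
      · exact_mod_cast h.1
      · exact_mod_cast h.2.1
    · rintro ⟨x, y, z⟩ ht
      rw [mem_filter, mem_zset] at ht
      simp only [Prod.mk.injEq, true_and] at ht
      obtain ⟨⟨h1, h2, h3, h4⟩, h5, h6⟩ := ht
      subst h5
      lift x to ℕ using (by linarith) with x0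
      lift z to ℕ using (by linarith) with z0
      have hn' : x0 ^ 2 + 4 * z0 ^ 2 = n := by
        have : ((x0 ^ 2 + 4 * z0 ^ 2 : ℕ) : ℤ) = n := by push_cast; rw [← h4]; ring
        exact_mod_cast this
      refine ⟨(x0, z0), ?_, rfl⟩
      simp only [mem_filter, mem_product, mem_Icc]
      refine ⟨⟨⟨by omega, by nlinarith⟩, ⟨by omega, by nlinarith⟩⟩, hn'⟩
  rw [c1] at e1
  rw [c2] at e2
  rw [← e1, e2]

end Pool.Agent.H312.Nu
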