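import Mathlib
import Pool.Agent.H312.Nu.Zagier

set_option autoImplicit false

namespace Pool.Agent.H312.Nu

open Finset

/-- number of partitions of `m` with exactly `k` distinct part sizes -/
def nu (k m : ℕ) : ℕ :=
  ((Finset.univ : Finset (Nat.Partition m)).filter (fun P => P.parts.toFinset.card = k)).card

/-- quadruples ((x,a),(y,b)) with x a + y b = m -/
def tset (m : ℕ) : Finset ((ℕ × ℕ) × (ℕ × ℕ)) :=
  ((Icc 1 m ×ˢ Icc 1 m) ×ˢ (Icc 1 m ×ˢ Icc 1 m)).filter
    (fun t => t.1.1 * t.1.2 + t.2.1 * t.2.2 = m)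

theorem mem_tset {m : ℕ} {t : (ℕ × ℕ) × (ℕ × ℕ)} :
    t ∈ tset m ↔ 1 ≤ t.1.1 ∧ 1 ≤ t.1.2 ∧ 1 ≤ t.2.1 ∧ 1 ≤ t.2.2 ∧
      t.1.1 * t.1.2 + t.2.1 * t.2.2 = m := by
  obtain ⟨⟨x, a⟩, ⟨y, b⟩⟩ := t
  simp only [tset, mem_filter, mem_product, mem_Icc]
  constructor
  · rintro ⟨⟨⟨⟨h1, -⟩, ⟨h2, -⟩⟩, ⟨⟨h3, -⟩, ⟨h4, -⟩⟩⟩, h5⟩
    exact ⟨h1, h2, h3, h4, h5⟩
  · rintro ⟨h1, h2, h3, h4, h5⟩
    refine ⟨⟨⟨⟨h1, ?_⟩, ⟨h2, ?_⟩⟩, ⟨⟨h3, ?_⟩, ⟨h4, ?_⟩⟩⟩, h5⟩ <;> nlinarith

theorem card_divAnti (n : ℕ) : n.divisorsAntidiagonal.card = n.divisors.card := by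
  rw [← Nat.map_div_right_divisors, Finset.card_map]

theorem card_tset (m : ℕ) :
    (tset m).card = ∑ i ∈ Icc 1 (m - 1), i.divisors.card * (m - i).divisors.card := by
  classical
  rw [Finset.card_eq_sum_card_fiberwise (f := fun t => t.1.1 * t.1.2) (t := Icc 1 (m - 1))]
  · refine Finset.sum_congr rfl fun i hi => ?_
    rw [mem_Icc] at hi
    have : (tset m).filter (fun t => t.1.1 * t.1.2 = i)
        = i.divisorsAntidiagonal ×ˢ (m - i).divisorsAntidiagonal := by
      ext ⟨⟨x, a⟩, ⟨y, b⟩⟩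
      rw [mem_filter, mem_tset, mem_product, Nat.mem_divisorsAntidiagonal,
        Nat.mem_divisorsAntidiagonal]
      simp only
      constructor
      · rintro ⟨⟨h1, h2, h3, h4, h5⟩, h6⟩
        refine ⟨⟨h6, by omega⟩, ⟨by omega, by omega⟩⟩
      · rintro ⟨⟨h1, h2⟩, ⟨h3, h4⟩⟩
        refine ⟨⟨?_, ?_, ?_, ?_, by omega⟩, h1⟩
        · rcases Nat.eq_zero_or_pos x with h | h
          · subst h; simp at h1; omega
          · exact h
        · rcases Nat.eq_zero_or_pos a with h | h
          · subst h; simp at h1; omega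
          · exact h
        · rcases Nat.eq_zero_or_pos y with h | h
          · subst h; simp at h3; omega
          · exact h
        · rcases Nat.eq_zero_or_pos b with h | h
          · subst h; simp at h3; omega
          · exact h
    rw [this, card_product, card_divAnti, card_divAnti]
  · intro t ht
    rw [mem_coe, mem_tset] at ht
    obtain ⟨h1, h2, h3, h4, h5⟩ := ht
    simp only [coe_Icc, Set.mem_Icc]
    have e1 : 0 < t.1.1 * t.1.2 := Nat.mul_pos h1 h2
    have e2 : 0 < t.2.1 * t.2.2 := Nat.mul_pos h3 h4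
    omega

/-- the diagonal part -/
theorem card_tset_diag (m : ℕ) (hm : m ≠ 0) :
    ((tset m).filter (fun t => t.1.1 = t.2.1)).card + m.divisors.card = ∑ x ∈ m.divisors, x := by
  classical
  rw [Finset.card_eq_sum_card_fiberwise (f := fun t => t.1.1) (t := m.divisors)]
  · have key : ∀ x ∈ m.divisors,
        (((tset m).filter (fun t => t.1.1 = t.2.1)).filter (fun t => t.1.1 = x)).card = m / x - 1 := by
      intro x hx
      obtain ⟨⟨c, hc⟩, -⟩ := Nat.mem_divisors.mp hx
      have hx0 : 0 < x := Nat.pos_of_ne_zero (by rintro rfl; simp at hc; exact hm hc)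
      have hdiv : m / x = c := by rw [hc]; exact Nat.mul_div_cancel_left c hx0
      rw [hdiv]
      have : (Icc 1 (c - 1)).card = c - 1 := by simp
      rw [← this]
      symm
      refine Finset.card_bij (fun a _ => ((x, a), (x, c - a))) ?_ ?_ ?_
      · intro a ha
        rw [mem_Icc] at ha
        rw [mem_filter, mem_filter, mem_tset]
        refine ⟨⟨⟨hx0, ha.1, hx0, ?_, ?_⟩, rfl⟩, rfl⟩
        · simp only; omega
        · simp only
          rw [← Nat.mul_add, hc]
          congr 1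
          omega
      · intro a _ b _ h
        simp only [Prod.mk.injEq, true_and] at h
        exact h.1
      · rintro ⟨⟨x1, a⟩, ⟨y, b⟩⟩ ht
        rw [mem_filter, mem_filter, mem_tset] at ht
        simp only at ht
        obtain ⟨⟨⟨h1, h2, h3, h4, h5⟩, h6⟩, h7⟩ := ht
        subst h7
        subst h6
        have : a + b = c := by
          rw [← Nat.mul_add, hc] at h5
          exact Nat.eq_of_mul_eq_mul_left h1 h5
        refine ⟨a, ?_, ?_⟩
        · rw [mem_Icc]; omega
        · simp only [Prod.mk.injEq, true_and]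
          omega
    rw [Finset.sum_congr rfl key]
    have h2 : m.divisors.card = ∑ x ∈ m.divisors, 1 := by simp
    rw [h2, ← Finset.sum_add_distrib, ← Nat.sum_div_divisors m (fun x => x)]
    refine Finset.sum_congr rfl fun x hx => ?_
    have : 0 < m / x := Nat.div_pos (Nat.divisor_le hx) (Nat.pos_of_mem_divisors hx)
    omega
  · intro t ht
    rw [mem_coe, mem_filter, mem_tset] at ht
    obtain ⟨⟨h1, h2, h3, h4, h5⟩, h6⟩ := ht
    rw [mem_coe, Nat.mem_divisors]
    refine ⟨⟨t.1.2 + t.2.2, ?_⟩, hm⟩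
    rw [Nat.mul_add, ← h5, ← h6]

/-- the multiset attached to a quadruple -/
def mk2 (t : (ℕ × ℕ) × (ℕ × ℕ)) : Multiset ℕ :=
  Multiset.replicate t.1.2 t.1.1 + Multiset.replicate t.2.2 t.2.1

theorem mk2_injOn (m : ℕ) :
    Set.InjOn mk2 (((tset m).filter (fun t => t.1.1 < t.2.1) : Finset _) : Set ((ℕ × ℕ) × (ℕ × ℕ))) := by
  intro t ht t' ht' h
  rw [mem_coe, mem_filter, mem_tset] at ht ht'
  obtain ⟨⟨x, a⟩, ⟨y, b⟩⟩ := t
  obtain ⟨⟨x', a'⟩, ⟨y', b'⟩⟩ := t'
  simp only at ht ht'
  obtain ⟨⟨h1, h2, h3, h4, h5⟩, h6⟩ := ht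
  obtain ⟨⟨h1', h2', h3', h4', h5'⟩, h6'⟩ := ht'
  have hc : ∀ z, (if x = z then a else 0) + (if y = z then b else 0)
      = (if x' = z then a' else 0) + (if y' = z then b' else 0) := by
    intro z
    have := congrArg (Multiset.count z) h
    simpa only [mk2, Multiset.count_add, Multiset.count_replicate] using this
  clear h5 h5' h
  have e1 := hc x
  have e2 := hc y
  have e3 := hc x'
  have e4 := hc y'
  have hx1 : x = x' ∨ x = y' := by
    by_contra hcon
    push Not at hcon
    have f1 : ¬ (y = x) := by omega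
    have f2 : ¬ (x' = x) := by omega
    have f3 : ¬ (y' = x) := by omega
    rw [if_pos rfl, if_neg f1, if_neg f2, if_neg f3] at e1
    omega
  have hy1 : y = x' ∨ y = y' := by
    by_contra hcon
    push Not at hcon
    have f1 : ¬ (x = y) := by omega
    have f2 : ¬ (x' = y) := by omega
    have f3 : ¬ (y' = y) := by omega
    rw [if_neg f1, if_pos rfl, if_neg f2, if_neg f3] at e2
    omega
  have hxx : x = x' := by omega
  have hyy : y = y' := by omega
  subst hxx
  subst hyy
  have f1 : ¬ (y = x) := by omega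
  have f2 : ¬ (x = y) := by omega
  have g1 : a = a' := by
    simpa [f1, f2] using e1
  have g2 : b = b' := by
    simpa [f1, f2] using e2
  rw [g1, g2]

theorem card_tset_lt (m : ℕ) :
    ((tset m).filter (fun t => t.1.1 < t.2.1)).card = nu 2 m := by
  classical
  unfold nu
  rw [← Finset.card_image_of_injOn (mk2_injOn m)]
  rw [← Finset.card_image_of_injective (f := Nat.Partition.parts) (univ.filter _)
    (fun P Q h => Nat.Partition.ext h)]
  congr 1
  ext s
  rw [mem_image, mem_image]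
  constructor
  · rintro ⟨t, ht, rfl⟩
    rw [mem_filter, mem_tset] at ht
    obtain ⟨⟨h1, h2, h3, h4, h5⟩, h6⟩ := ht
    refine ⟨⟨mk2 t, ?_, ?_⟩, ?_, rfl⟩
    · intro i hi
      rw [mk2, Multiset.mem_add] at hi
      rcases hi with hi | hi
      · rw [Multiset.eq_of_mem_replicate hi]; exact h1
      · rw [Multiset.eq_of_mem_replicate hi]; exact h3
    · rw [mk2, Multiset.sum_add, Multiset.sum_replicate, Multiset.sum_replicate, smul_eq_mul,
          smul_eq_mul, ← h5]
      ring
    · rw [mem_filter]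
      refine ⟨mem_univ _, ?_⟩
      have : (mk2 t).toFinset = {t.1.1, t.2.1} := by
        ext z
        rw [mk2, Multiset.mem_toFinset, Multiset.mem_add, Multiset.mem_replicate,
          Multiset.mem_replicate, mem_insert, mem_singleton]
        constructor
        · rintro (⟨-, h⟩ | ⟨-, h⟩)
          · exact Or.inl h
          · exact Or.inr h
        · rintro (h | h)
          · exact Or.inl ⟨by omega, h⟩
          · exact Or.inr ⟨by omega, h⟩
      rw [this]
      exact Finset.card_pair (Nat.ne_of_lt h6)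
  · rintro ⟨P, hP, rfl⟩
    rw [mem_filter] at hP
    obtain ⟨-, hP⟩ := hP
    obtain ⟨x, y, hxy, hP2⟩ := Finset.card_eq_two.mp hP
    have hgen : ∀ x y : ℕ, x < y → P.parts.toFinset = {x, y} →
        ∃ a ∈ (tset m).filter (fun t => t.1.1 < t.2.1), mk2 a = P.parts := by
      intro x y hxy hP2
      have hsum := Multiset.toFinset_sum_count_nsmul_eq P.parts
      rw [hP2, Finset.sum_pair (Nat.ne_of_lt hxy), Multiset.nsmul_singleton,
        Multiset.nsmul_singleton] at hsum
      have hx : x ∈ P.parts := by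
        rw [← Multiset.mem_toFinset, hP2]; simp
      have hy : y ∈ P.parts := by
        rw [← Multiset.mem_toFinset, hP2]; simp
      refine ⟨((x, P.parts.count x), (y, P.parts.count y)), ?_, hsum⟩
      rw [mem_filter, mem_tset]
      refine ⟨⟨P.parts_pos hx, Multiset.one_le_count_iff_mem.mpr hx, P.parts_pos hy,
        Multiset.one_le_count_iff_mem.mpr hy, ?_⟩, hxy⟩
      simp only
      have := P.parts_sum
      rw [← hsum, Multiset.sum_add, Multiset.sum_replicate, Multiset.sum_replicate, smul_eq_mul,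
          smul_eq_mul] at this
      linarith
    rcases lt_or_gt_of_ne hxy with h | h
    · exact hgen x y h hP2
    · exact hgen y x h (by rw [hP2, Finset.pair_comm])

theorem card_tset_gt (m : ℕ) :
    ((tset m).filter (fun t => t.2.1 < t.1.1)).card
      = ((tset m).filter (fun t => t.1.1 < t.2.1)).card := by
  classical
  refine Finset.card_bij (fun t _ => (t.2, t.1)) ?_ ?_ ?_
  · intro t ht
    rw [mem_filter, mem_tset] at ht ⊢
    obtain ⟨⟨h1, h2, h3, h4, h5⟩, h6⟩ := ht
    refine ⟨⟨h3, h4, h1, h2, ?_⟩, h6⟩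
    simp only
    rw [← h5]; ring
  · rintro ⟨x, y⟩ _ ⟨x', y'⟩ _ h
    simp only [Prod.mk.injEq] at h
    rw [h.1, h.2]
  · rintro ⟨x, y⟩ ht
    refine ⟨(y, x), ?_, rfl⟩
    rw [mem_filter, mem_tset] at ht ⊢
    obtain ⟨⟨h1, h2, h3, h4, h5⟩, h6⟩ := ht
    refine ⟨⟨h3, h4, h1, h2, ?_⟩, h6⟩
    simp only at h5 ⊢
    rw [← h5]; ring

theorem card_tset_split (m : ℕ) :
    (tset m).card = 2 * nu 2 m + ((tset m).filter (fun t => t.1.1 = t.2.1)).card := by
  classical
  have h1 := Finset.card_filter_add_card_filter_not (s := tset m) (fun t => t.1.1 < t.2.1)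
  have h2 := Finset.card_filter_add_card_filter_not (s := (tset m).filter (fun t => ¬ t.1.1 < t.2.1))
    (fun t => t.2.1 < t.1.1)
  rw [Finset.filter_filter, Finset.filter_filter] at h2
  have h3 : (tset m).filter (fun t => ¬ t.1.1 < t.2.1 ∧ t.2.1 < t.1.1)
      = (tset m).filter (fun t => t.2.1 < t.1.1) := by
    refine Finset.filter_congr fun t _ => ?_
    constructor
    · exact fun h => h.2
    · exact fun h => ⟨by omega, h⟩
  have h4 : (tset m).filter (fun t => ¬ t.1.1 < t.2.1 ∧ ¬ t.2.1 < t.1.1)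
      = (tset m).filter (fun t => t.1.1 = t.2.1) := by
    refine Finset.filter_congr fun t _ => ?_
    constructor
    · rintro ⟨h, h'⟩; omega
    · intro h; omega
  rw [h3, h4, card_tset_gt] at h2
  rw [card_tset_lt] at h1 h2
  omega

end Pool.Agent.H312.Nu
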