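import Mathlib

set_option autoImplicit false

namespace Pool.Agent.H312.Nu

open Finset

section
variable {R : Type*} [CommRing R] (x : R)

def GG (n : ℕ) : R := ∏ j ∈ range n, (1 + x ^ (j + 1))
def EE (n : ℕ) : R := ∏ j ∈ range n, (1 - x ^ (j + 1))
def SS (n : ℕ) : R := ∑ s ∈ range n, (-1) ^ (s + 1) * x ^ ((s + 1) ^ 2)
def DD (s n : ℕ) : R := ∏ j ∈ Ioc s n, (1 - x ^ j)
def AA (n t : ℕ) : R := (-1) ^ (t + 1) * x ^ ((t + 1) * (n + 1)) * GG x t * DD x (t + 1) n
def VV (n t : ℕ) : R := (-1) ^ (t + 1) * GG x t * DD x t n * x ^ ((t + 1) * (n + 1))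

theorem DD_top {s n : ℕ} (h : s ≤ n) : DD x s (n + 1) = DD x s n * (1 - x ^ (n + 1)) := by
  unfold DD
  rw [Finset.prod_Ioc_succ_top h]

theorem DD_bot {s n : ℕ} (h : s < n) : DD x s n = (1 - x ^ (s + 1)) * DD x (s + 1) n := by
  unfold DD
  rw [← Finset.prod_Ioc_consecutive (fun j => 1 - x ^ j) (Nat.le_succ s) h]
  congr 1
  simp

theorem DD_self (n : ℕ) : DD x n n = 1 := by simp [DD]

theorem DD_zero (n : ℕ) : DD x 0 n = EE x n := by
  unfold DD EE
  induction n with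
  | zero => simp
  | succ n ih => rw [Finset.prod_Ioc_succ_top (Nat.zero_le n), ih, Finset.prod_range_succ]

theorem step_term {n t : ℕ} (h : t < n) :
    AA x (n + 1) t - (1 + x ^ (n + 1)) * AA x n t = VV x n (t + 1) - VV x n t := by
  unfold AA VV
  rw [DD_top x (by omega : t + 1 ≤ n), DD_bot x h]
  have hG : GG x (t + 1) = GG x t * (1 + x ^ (t + 1)) := by
    unfold GG; rw [Finset.prod_range_succ]
  rw [hG]
  have e1 : x ^ ((t + 1) * (n + 1 + 1)) = x ^ ((t + 1) * (n + 1)) * x ^ (t + 1) := by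
    rw [← pow_add]; congr 1
  have e2 : x ^ ((t + 1 + 1) * (n + 1)) = x ^ ((t + 1) * (n + 1)) * x ^ (n + 1) := by
    rw [← pow_add]; congr 1; ring
  rw [e1, e2, pow_succ (-1 : R) (t + 1)]
  ring

theorem gauss (n : ℕ) :
    GG x n * (1 + 2 * SS x n) = EE x n + 2 * ∑ t ∈ range n, AA x n t := by
  induction n with
  | zero => simp [GG, EE, SS]
  | succ n ih =>
    have hG : GG x (n + 1) = GG x n * (1 + x ^ (n + 1)) := by
      unfold GG; rw [Finset.prod_range_succ]
    have hE : EE x (n + 1) = EE x n * (1 - x ^ (n + 1)) := by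
      unfold EE; rw [Finset.prod_range_succ]
    have hS : SS x (n + 1) = SS x n + (-1) ^ (n + 1) * x ^ ((n + 1) ^ 2) := by
      unfold SS; rw [Finset.sum_range_succ]
    have hsum : ∑ t ∈ range n, AA x (n + 1) t
        = (1 + x ^ (n + 1)) * ∑ t ∈ range n, AA x n t + (VV x n n - VV x n 0) := by
      rw [← Finset.sum_range_sub (VV x n), Finset.mul_sum, ← Finset.sum_add_distrib]
      refine Finset.sum_congr rfl fun t ht => ?_
      rw [← step_term x (mem_range.mp ht)]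
      ring
    rw [Finset.sum_range_succ, hsum]
    have hV0 : VV x n 0 = - (EE x n * x ^ (n + 1)) := by
      unfold VV; rw [DD_zero]; simp [GG]
    have hVn : VV x n n = (-1) ^ (n + 1) * GG x n * x ^ ((n + 1) ^ 2) := by
      unfold VV; rw [DD_self, sq]; ring
    have hAn : AA x (n + 1) n = (-1) ^ (n + 1) * x ^ ((n + 1) ^ 2) * x ^ (n + 1) * GG x n := by
      unfold AA; rw [DD_self]
      have : x ^ ((n + 1) * (n + 1 + 1)) = x ^ ((n + 1) ^ 2) * x ^ (n + 1) := by
        rw [← pow_add]; congr 1; ring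
      rw [this]; ring
    rw [hV0, hVn, hAn, hG, hE, hS]
    have ih' := ih
    linear_combination (1 + x ^ (n + 1)) * ih'

theorem dvd_gauss (n : ℕ) : x ^ (n + 1) ∣ GG x n * (1 + 2 * SS x n) - EE x n := by
  rw [gauss, add_sub_cancel_left]
  refine Dvd.dvd.mul_left (Finset.dvd_sum fun t _ => ?_) _
  unfold AA
  have : x ^ ((t + 1) * (n + 1)) = x ^ (n + 1) * x ^ (t * (n + 1)) := by
    rw [← pow_add]; congr 1; ring
  rw [this]
  exact ⟨(-1) ^ (t + 1) * x ^ (t * (n + 1)) * GG x t * DD x (t + 1) n, by ring⟩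

end

open PowerSeries
open scoped PowerSeries.WithPiTopology

/-- overpartition generating function -/
noncomputable def PP : PowerSeries ℤ := Nat.Partition.genFun (fun _ _ => (2 : ℤ))

noncomputable def FF (i : ℕ) : PowerSeries ℤ :=
  1 + ∑' j, (2 : ℤ) • (X : PowerSeries ℤ) ^ ((i + 1) * (j + 1))

theorem FF_mul (i : ℕ) : FF i * (1 - X ^ (i + 1)) = 1 + X ^ (i + 1) := by
  have h0 : (X ^ (i + 1) : PowerSeries ℤ).constantCoeff = 0 := by simp
  have h1 : ∑' j, (2 : ℤ) • (X : PowerSeries ℤ) ^ ((i + 1) * (j + 1))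
      = (∑' j, ((X : PowerSeries ℤ) ^ (i + 1)) ^ j) * (2 * X ^ (i + 1)) := by
    rw [← (WithPiTopology.summable_pow_of_constantCoeff_eq_zero h0).tsum_mul_right]
    refine tsum_congr fun j => ?_
    rw [zsmul_eq_mul, ← pow_mul]
    push_cast
    have : (X : PowerSeries ℤ) ^ ((i + 1) * (j + 1)) = X ^ ((i + 1) * j) * X ^ (i + 1) := by
      rw [← pow_add]; congr 1
    rw [this]; ring
  unfold FF
  rw [h1]
  have h2 := WithPiTopology.tsum_pow_mul_one_sub_of_constantCoeff_eq_zero h0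
  linear_combination (2 * X ^ (i + 1)) * h2

theorem exists_trunc (m : ℕ) : ∃ N, m ≤ N ∧ ∀ d < m + 1,
    coeff d (∏ i ∈ range N, FF i) = coeff d PP := by
  have h := Nat.Partition.hasProd_genFun (fun _ _ => (2 : ℤ))
  rw [HasProd, WithPiTopology.tendsto_iff_coeff_tendsto] at h
  have h2 : ∀ d, ∀ᶠ N in Filter.atTop, coeff d (∏ i ∈ range N, FF i) = coeff d PP := by
    intro d
    have h3 := (h d).comp Filter.tendsto_finset_range
    rw [nhds_discrete, Filter.tendsto_pure] at h3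
    exact h3
  have h4 : ∀ᶠ N in Filter.atTop, ∀ d ∈ range (m + 1),
      coeff d (∏ i ∈ range N, FF i) = coeff d PP := by
    rw [Filter.eventually_all_finset]
    intro d _
    exact h2 d
  obtain ⟨N, hN1, hN2⟩ := (h4.and (Filter.eventually_ge_atTop m)).exists
  exact ⟨N, hN2, fun d hd => hN1 d (mem_range.mpr hd)⟩

theorem PP_theta (m : ℕ) : ∃ N, m ≤ N ∧ (X : PowerSeries ℤ) ^ (m + 1) ∣
    PP * (1 + 2 * SS (X : PowerSeries ℤ) N) - 1 := by
  obtain ⟨N, hN, hco⟩ := exists_trunc m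
  refine ⟨N, hN, ?_⟩
  have h1 : (X : PowerSeries ℤ) ^ (m + 1) ∣ PP - ∏ i ∈ range N, FF i := by
    rw [X_pow_dvd_iff]
    intro d hd
    rw [map_sub, hco d hd, sub_self]
  have h2 : (∏ i ∈ range N, FF i) * EE (X : PowerSeries ℤ) N = GG X N := by
    unfold EE GG
    rw [← Finset.prod_mul_distrib]
    exact Finset.prod_congr rfl fun i _ => FF_mul i
  have h3 : (X : PowerSeries ℤ) ^ (m + 1) ∣ GG X N * (1 + 2 * SS X N) - EE X N :=
    (pow_dvd_pow X (by omega)).trans (dvd_gauss X N)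
  have h4 : (X : PowerSeries ℤ) ^ (m + 1) ∣
      EE X N * (PP * (1 + 2 * SS (X : PowerSeries ℤ) N) - 1) := by
    have : EE X N * (PP * (1 + 2 * SS (X : PowerSeries ℤ) N) - 1)
        = (PP - ∏ i ∈ range N, FF i) * (EE X N * (1 + 2 * SS X N))
          + (GG X N * (1 + 2 * SS X N) - EE X N) := by
      rw [← h2]; ring
    rw [this]
    exact dvd_add (Dvd.dvd.mul_right h1 _) h3
  have hu : IsUnit (EE (X : PowerSeries ℤ) N) := by
    rw [PowerSeries.isUnit_iff_constantCoeff]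
    unfold EE
    rw [map_prod]
    simp
  exact (hu.dvd_mul_left).mp h4

end Pool.Agent.H312.Nu
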