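import Mathlib
import Pool.Agent.H312.Nu.Conv

set_option autoImplicit false

namespace Pool.Agent.H312.Nu

open Finset

/-- no representation x² + 2 z² = m -/
theorem no_rep {m p w : ℕ} (hp : p.Prime) (hp8 : p % 8 = 5) (hm : m = 2 * p * w)
    (hpw : ¬ p ∣ w) (x z : ℕ) : x ^ 2 + 2 * z ^ 2 ≠ m := by
  intro h
  have : Fact p.Prime := ⟨hp⟩
  have hp2 : p ≠ 2 := by intro h; rw [h] at hp8; norm_num at hp8
  have hnsq : ¬ IsSquare (-2 : ZMod p) := by
    rw [ZMod.exists_sq_eq_neg_two_iff hp2]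
    omega
  have hz : (x : ZMod p) ^ 2 + 2 * (z : ZMod p) ^ 2 = 0 := by
    have : ((x ^ 2 + 2 * z ^ 2 : ℕ) : ZMod p) = ((2 * p * w : ℕ) : ZMod p) := by rw [h, hm]
    push_cast at this
    rw [this, ZMod.natCast_self]; ring
  have hz0 : (z : ZMod p) = 0 := by
    by_contra hne
    apply hnsq
    refine ⟨(x : ZMod p) / z, ?_⟩
    field_simp
    linear_combination -hz
  have hx0 : (x : ZMod p) = 0 := by
    rw [hz0] at hz
    have : (x : ZMod p) ^ 2 = 0 := by linear_combination hz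
    exact pow_eq_zero_iff (two_ne_zero) |>.mp this
  rw [ZMod.natCast_eq_zero_iff] at hz0 hx0
  obtain ⟨u, rfl⟩ := hx0
  obtain ⟨v, rfl⟩ := hz0
  have h2 : p * (p * (u ^ 2 + 2 * v ^ 2)) = p * (2 * w) := by
    rw [hm] at h
    linarith [h, (by ring : (p * u) ^ 2 + 2 * (p * v) ^ 2 = p * (p * (u ^ 2 + 2 * v ^ 2))),
      (by ring : 2 * p * w = p * (2 * w))]
  have h3 := Nat.eq_of_mul_eq_mul_left hp.pos h2
  have h4 : p ∣ 2 * w := ⟨_, h3.symm⟩
  rcases (Nat.Prime.dvd_mul hp).mp h4 with h5 | h5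
  · have := Nat.le_of_dvd (by norm_num) h5
    interval_cases p <;> simp_all
  · exact hpw h5

theorem not_sq_mod4 {w : ℕ} (hw : w % 4 = 3) : ¬ IsSquare w := by
  rintro ⟨r, hr⟩
  have h4 : r % 4 < 4 := Nat.mod_lt _ (by norm_num)
  have : (r * r) % 4 = 3 := by rw [← hr]; exact hw
  rw [Nat.mul_mod] at this
  interval_cases (r % 4) <;> simp at this

theorem not_sq_mod8 {w : ℕ} (hw : w % 8 = 5 ∨ w % 8 = 6) : ¬ IsSquare w := by
  rintro ⟨r, hr⟩
  have h4 : r % 8 < 8 := Nat.mod_lt _ (by norm_num)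
  have : (r * r) % 8 = 5 ∨ (r * r) % 8 = 6 := by rw [← hr]; exact hw
  rw [Nat.mul_mod] at this
  interval_cases (r % 8) <;> simp at this

theorem even_card_divisors {w : ℕ} (hw0 : w ≠ 0) (hw : ¬ IsSquare w) : w.divisors.card = 2 * hh w := by
  rw [card_divisors_eq w hw0]
  simp [gg, hw]

theorem four_dvd_sigma {w : ℕ} (hw : w % 4 = 3) : 4 ∣ ∑ x ∈ w.divisors, x := by
  classical
  have hsq := not_sq_mod4 hw
  have : ((∑ x ∈ w.divisors, x : ℕ) : ZMod 4) = 0 := by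
    rw [Nat.cast_sum]
    have hw0 : w ≠ 0 := by omega
    refine Finset.sum_involution (fun x _ => w / x) ?_ ?_ ?_ ?_
    · intro x hx
      obtain ⟨⟨y, hy⟩, -⟩ := Nat.mem_divisors.mp hx
      have hx0 : 0 < x := Nat.pos_of_ne_zero (by rintro rfl; simp at hy; omega)
      have hdiv : w / x = y := by rw [hy]; exact Nat.mul_div_cancel_left y hx0
      simp only [hdiv]
      have hxy : (x : ZMod 4) * y = 3 := by
        have h1 : ((w : ℕ) : ZMod 4) = ((3 : ℕ) : ZMod 4) := by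
          rw [ZMod.natCast_eq_natCast_iff]
          exact hw
        rw [hy] at h1
        push_cast at h1
        exact h1
      generalize (x : ZMod 4) = a at hxy ⊢
      generalize (y : ZMod 4) = b at hxy ⊢
      revert a b
      decide
    · intro x hx _ h
      obtain ⟨⟨y, hy⟩, -⟩ := Nat.mem_divisors.mp hx
      have hx0 : 0 < x := Nat.pos_of_ne_zero (by rintro rfl; simp at hy; omega)
      have hdiv : w / x = y := by rw [hy]; exact Nat.mul_div_cancel_left y hx0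
      rw [hdiv] at h
      exact hsq ⟨x, by rw [hy, h]⟩
    · intro x hx
      obtain ⟨⟨y, hy⟩, -⟩ := Nat.mem_divisors.mp hx
      have hx0 : 0 < x := Nat.pos_of_ne_zero (by rintro rfl; simp at hy; omega)
      have hdiv : w / x = y := by rw [hy]; exact Nat.mul_div_cancel_left y hx0
      simp only [hdiv]
      exact Nat.mem_divisors.mpr ⟨⟨x, by rw [hy]; ring⟩, hw0⟩
    · intro x hx
      exact Nat.div_div_self (Nat.mem_divisors.mp hx).1 hw0
  rw [ZMod.natCast_eq_zero_iff] at this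
  exact this

theorem coprime_facts {p w : ℕ} (hp : p.Prime) (hp8 : p % 8 = 5) (hw : w % 4 = 3)
    (hpw : ¬ p ∣ w) : Nat.Coprime 2 (p * w) ∧ Nat.Coprime p w := by
  refine ⟨?_, (Nat.Prime.coprime_iff_not_dvd hp).mpr hpw⟩
  rw [Nat.coprime_two_left]
  rw [Nat.odd_mul]
  exact ⟨Nat.odd_iff.mpr (by omega), Nat.odd_iff.mpr (by omega)⟩

theorem card_div_m {m p w : ℕ} (hp : p.Prime) (hp8 : p % 8 = 5) (hm : m = 2 * p * w)
    (hw : w % 4 = 3) (hpw : ¬ p ∣ w) : m.divisors.card = 8 * hh w := by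
  obtain ⟨c1, c2⟩ := coprime_facts hp hp8 hw hpw
  rw [hm, mul_assoc, Nat.Coprime.card_divisors_mul c1, Nat.Coprime.card_divisors_mul c2,
    even_card_divisors (by omega) (not_sq_mod4 hw), Nat.Prime.divisors hp,
    Nat.Prime.divisors Nat.prime_two, Finset.card_pair (by norm_num),
    Finset.card_pair (Ne.symm hp.one_lt.ne')]
  ring

theorem sigma_m {m p w : ℕ} (hp : p.Prime) (hp8 : p % 8 = 5) (hm : m = 2 * p * w)
    (hw : w % 4 = 3) (hpw : ¬ p ∣ w) : 8 ∣ ∑ x ∈ m.divisors, x := by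
  obtain ⟨c1, c2⟩ := coprime_facts hp hp8 hw hpw
  rw [hm, mul_assoc, Nat.Coprime.sum_divisors_mul c1, Nat.Coprime.sum_divisors_mul c2,
    Nat.Prime.divisors hp, Nat.Prime.divisors Nat.prime_two, Finset.sum_pair (by norm_num),
    Finset.sum_pair (Ne.symm hp.one_lt.ne')]
  obtain ⟨u, hu⟩ := four_dvd_sigma hw
  obtain ⟨v, hv⟩ : 2 ∣ 1 + p := by omega
  rw [hu, hv]
  exact ⟨3 * v * u, by ring⟩

theorem no_two_sq {m : ℕ} (hm : m % 8 = 6) {i : ℕ} (_hi1 : 1 ≤ i) (hi2 : i ≤ m - 1) :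
    gg i * gg (m - i) = 0 := by
  unfold gg
  split_ifs with h1 h2
  · exfalso
    obtain ⟨r, hr⟩ := h1
    obtain ⟨s, hs⟩ := h2
    have h : m = r * r + s * s := by omega
    have a1 : r % 8 < 8 := Nat.mod_lt _ (by norm_num)
    have a2 : s % 8 < 8 := Nat.mod_lt _ (by norm_num)
    rw [h, Nat.add_mod, Nat.mul_mod r r, Nat.mul_mod s s] at hm
    interval_cases (r % 8) <;> interval_cases (s % 8) <;> simp at hm
  · simp
  · simp
  · simp

theorem reflect_sum {M : Type*} [AddCommMonoid M] (m : ℕ) (f : ℕ → M) :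
    ∑ i ∈ Icc 1 (m - 1), f (m - i) = ∑ i ∈ Icc 1 (m - 1), f i := by
  refine Finset.sum_bij' (fun i _ => m - i) (fun i _ => m - i) ?_ ?_ ?_ ?_ ?_
  · intro i hi; rw [mem_Icc] at hi ⊢; omega
  · intro i hi; rw [mem_Icc] at hi ⊢; omega
  · intro i hi; rw [mem_Icc] at hi; omega
  · intro i hi; rw [mem_Icc] at hi; omega
  · intro i _; rfl

theorem tset_expand {m : ℕ} (hm : m % 8 = 6) :
    (tset m).card = 4 * (∑ i ∈ Icc 1 (m - 1), gg i * hh (m - i)
      + ∑ i ∈ Icc 1 (m - 1), hh i * hh (m - i)) := by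
  rw [card_tset]
  have h1 : ∀ i ∈ Icc 1 (m - 1), i.divisors.card * (m - i).divisors.card
      = 2 * (gg i * hh (m - i)) + 2 * (gg (m - i) * hh (m - (m - i)))
        + 4 * (hh i * hh (m - i)) := by
    intro i hi
    rw [mem_Icc] at hi
    rw [card_divisors_eq i (by omega), card_divisors_eq (m - i) (by omega)]
    have h0 := no_two_sq hm hi.1 hi.2
    have : m - (m - i) = i := by omega
    rw [this]
    linear_combination h0
  rw [Finset.sum_congr rfl h1, Finset.sum_add_distrib, Finset.sum_add_distrib,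
    ← Finset.mul_sum, ← Finset.mul_sum, ← Finset.mul_sum]
  rw [reflect_sum m (fun i => gg i * hh (m - i))]
  ring

/-- the `hh hh` sum is even -/
theorem hhhh_even {m p w : ℕ} (hp : p.Prime) (hp8 : p % 8 = 5) (hm : m = 2 * p * w)
    (hw : w % 4 = 3) (hpw : ¬ p ∣ w) :
    ((∑ i ∈ Icc 1 (m - 1), hh i * hh (m - i) : ℕ) : ZMod 2) = 0 := by
  classical
  obtain ⟨c1, c2⟩ := coprime_facts hp hp8 hw hpw
  have hpw4 : (p * w) % 4 = 3 := by
    rw [Nat.mul_mod, hw, show p % 4 = 1 by omega]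
  have hhpw : hh (p * w) = 2 * hh w := by
    have h1 := even_card_divisors (w := p * w) (by omega) (not_sq_mod4 hpw4)
    rw [Nat.Coprime.card_divisors_mul c2, even_card_divisors (by omega) (not_sq_mod4 hw),
      Nat.Prime.divisors hp, Finset.card_pair (Ne.symm hp.one_lt.ne')] at h1
    omega
  rw [Nat.cast_sum]
  refine Finset.sum_involution (fun i _ => m - i) ?_ ?_ ?_ ?_
  · intro i hi
    rw [mem_Icc] at hi
    have : m - (m - i) = i := by omega
    rw [this, mul_comm (hh (m - i)) (hh i)]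
    generalize ((hh i * hh (m - i) : ℕ) : ZMod 2) = a
    revert a; decide
  · intro i hi h h'
    rw [mem_Icc] at hi
    apply h
    have : i = p * w := by
      have : m = 2 * (p * w) := by rw [hm]; ring
      omega
    rw [h', this, hhpw]
    push_cast
    rw [show (2 : ZMod 2) = 0 from rfl]; ring
  · intro i hi; rw [mem_Icc] at hi ⊢; omega
  · intro i hi; rw [mem_Icc] at hi; omega

/-- rewriting the sum over squares -/
theorem sum_gg (m : ℕ) (f : ℕ → ZMod 2) :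
    ∑ i ∈ Icc 1 (m - 1), (gg i : ZMod 2) * f i
      = ∑ k ∈ (Icc 1 m).filter (fun k => k * k < m), f (k * k) := by
  classical
  have h1 : ∑ i ∈ Icc 1 (m - 1), (gg i : ZMod 2) * f i
      = ∑ i ∈ (Icc 1 (m - 1)).filter (fun i => IsSquare i), f i := by
    rw [Finset.sum_filter]
    refine Finset.sum_congr rfl fun i _ => ?_
    unfold gg
    split_ifs <;> simp
  rw [h1]
  symm
  refine Finset.sum_bij (fun k _ => k * k) ?_ ?_ ?_ ?_
  · intro k hk
    rw [mem_filter, mem_Icc] at hk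
    rw [mem_filter, mem_Icc]
    refine ⟨⟨?_, by omega⟩, ⟨k, rfl⟩⟩
    nlinarith [hk.1.1]
  · intro k _ k' _ h
    exact Nat.mul_self_inj.mp h
  · intro i hi
    rw [mem_filter, mem_Icc] at hi
    obtain ⟨⟨h1, h2⟩, ⟨r, hr⟩⟩ := hi
    refine ⟨r, ?_, hr.symm⟩
    rw [mem_filter, mem_Icc]
    have hr0 : 0 < r := Nat.pos_of_ne_zero (by rintro rfl; omega)
    refine ⟨⟨hr0, ?_⟩, by omega⟩
    have := Nat.le_mul_self r
    omega
  · intro k _; rfl

/-- the triples -/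
def uset (m : ℕ) : Finset (ℕ × ℕ × ℕ) :=
  (Icc 1 m ×ˢ Icc 1 m ×ˢ Icc 1 m).filter
    (fun t => t.1 % 2 = 1 ∧ t.1 ^ 2 + t.2.1 ^ 2 + 4 * t.2.2 ^ 2 = m)

theorem mem_uset {m : ℕ} {t : ℕ × ℕ × ℕ} : t ∈ uset m ↔ 1 ≤ t.1 ∧ 1 ≤ t.2.1 ∧ 1 ≤ t.2.2 ∧
    t.1 % 2 = 1 ∧ t.1 ^ 2 + t.2.1 ^ 2 + 4 * t.2.2 ^ 2 = m := by
  obtain ⟨x, y, z⟩ := t
  simp only [uset, mem_filter, mem_product, mem_Icc]
  constructor
  · rintro ⟨⟨⟨h1, -⟩, ⟨h2, -⟩, ⟨h3, -⟩⟩, h4, h5⟩
    exact ⟨h1, h2, h3, h4, h5⟩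
  · rintro ⟨h1, h2, h3, h4, h5⟩
    refine ⟨⟨⟨h1, ?_⟩, ⟨h2, ?_⟩, ⟨h3, ?_⟩⟩, h4, h5⟩ <;> nlinarith

theorem uset_even {m : ℕ} (hm : m % 8 = 6) (hrep : ∀ x z : ℕ, x ^ 2 + 2 * z ^ 2 ≠ m) :
    ((uset m).card : ZMod 2) = 0 := by
  classical
  rw [card_modTwo_of_involution (uset m) (fun t => (t.2.1, t.1, t.2.2))]
  · have : (uset m).filter (fun t => (t.2.1, t.1, t.2.2) = t) = ∅ := by
      rw [Finset.filter_eq_empty_iff]
      rintro ⟨x, y, z⟩ ht h
      rw [mem_uset] at ht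
      simp only [Prod.mk.injEq] at h ht
      apply hrep (2 * z) x
      rw [← ht.2.2.2.2, h.1]; ring
    rw [this]; simp
  · rintro ⟨x, y, z⟩ ht
    rw [mem_uset] at ht ⊢
    simp only at ht ⊢
    obtain ⟨h1, h2, h3, h4, h5⟩ := ht
    refine ⟨h2, h1, h3, ?_, by linarith⟩
    by_contra hy
    have hy2 : y % 2 = 0 := by omega
    obtain ⟨u, rfl⟩ : ∃ u, y = 2 * u := ⟨y / 2, by omega⟩
    obtain ⟨v, rfl⟩ : ∃ v, x = 2 * v + 1 := ⟨x / 2, by omega⟩
    have : m = 2 * (2 * v ^ 2 + 2 * v + 2 * u ^ 2 + 2 * z ^ 2) + 1 := by rw [← h5]; ring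
    omega
  · rintro ⟨x, y, z⟩ _; rfl

theorem gghh_even {m p w : ℕ} (hp : p.Prime) (hp8 : p % 8 = 5) (hm : m = 2 * p * w)
    (hw : w % 4 = 3) (hpw : ¬ p ∣ w) :
    ((∑ i ∈ Icc 1 (m - 1), gg i * hh (m - i) : ℕ) : ZMod 2) = 0 := by
  classical
  have hrep := no_rep hp hp8 hm hpw
  have hpw4 : (p * w) % 4 = 3 := by
    rw [Nat.mul_mod, hw, show p % 4 = 1 by omega]
  have hm8 : m % 8 = 6 := by
    have : m = 2 * (p * w) := by rw [hm]; ring
    omega
  have e1 : ((∑ i ∈ Icc 1 (m - 1), gg i * hh (m - i) : ℕ) : ZMod 2)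
      = ∑ i ∈ Icc 1 (m - 1), (gg i : ZMod 2) * ((hh (m - i) : ℕ) : ZMod 2) := by
    push_cast; rfl
  rw [e1, sum_gg m (fun i => ((hh (m - i) : ℕ) : ZMod 2))]
  -- split even and odd
  have e2 : ∀ k ∈ (Icc 1 m).filter (fun k => k * k < m),
      ((hh (m - k * k) : ℕ) : ZMod 2) =
        ((((uset m).filter (fun t => t.1 = k)).card : ℕ) : ZMod 2) := by
    intro k hk
    rw [mem_filter, mem_Icc] at hk
    obtain ⟨⟨hk1, -⟩, hk2⟩ := hk
    rcases Nat.mod_two_eq_zero_or_one k with hk3 | hk3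
    · -- k even
      have hempty : (uset m).filter (fun t => t.1 = k) = ∅ := by
        rw [Finset.filter_eq_empty_iff]
        intro t ht h
        rw [mem_uset] at ht
        rw [h] at ht
        omega
      rw [hempty, card_empty]
      obtain ⟨j, rfl⟩ : ∃ j, k = 2 * j := ⟨k / 2, by omega⟩
      have hjj : (2 * j) * (2 * j) = 4 * (j * j) := by ring
      obtain ⟨n', hn'⟩ : ∃ n', m - (2 * j) * (2 * j) = 2 * n' := ⟨(m - (2 * j) * (2 * j)) / 2, by omega⟩
      have hn'odd : n' % 2 = 1 := by omega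
      rw [hn']
      have hn'sq : ¬ IsSquare n' := by
        rintro ⟨z, hz⟩
        apply hrep (2 * j) z
        have : m = (2 * j) * (2 * j) + 2 * (z * z) := by rw [← hz]; omega
        rw [this]; ring
      have hsq2 : ¬ IsSquare (2 * n') := by
        rintro ⟨z, hz⟩
        have h4 : z % 4 < 4 := Nat.mod_lt _ (by norm_num)
        have h5 : (2 * n') % 4 = 2 := by omega
        rw [hz, Nat.mul_mod] at h5
        interval_cases (z % 4) <;> simp at h5
      have h1 := even_card_divisors (w := 2 * n') (by omega) hsq2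
      rw [Nat.Coprime.card_divisors_mul (by rw [Nat.coprime_two_left]; exact Nat.odd_iff.mpr hn'odd),
        even_card_divisors (by omega) hn'sq, Nat.Prime.divisors Nat.prime_two,
        Finset.card_pair (by norm_num)] at h1
      have h2 : hh (2 * n') = 2 * hh n' := by omega
      rw [h2]
      push_cast
      rw [show (2 : ZMod 2) = 0 from rfl]; ring
    · -- k odd
      obtain ⟨j, rfl⟩ : ∃ j, k = 2 * j + 1 := ⟨k / 2, by omega⟩
      have hkk : (2 * j + 1) * (2 * j + 1) % 8 = 1 := by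
        have : (2 * j + 1) * (2 * j + 1) = 4 * (j * (j + 1)) + 1 := by ring
        have h2 : 2 ∣ j * (j + 1) := even_iff_two_dvd.mp (Nat.even_mul_succ_self j)
        omega
      have hmod : (m - (2 * j + 1) * (2 * j + 1)) % 8 = 5 := by omega
      rw [hh_parity (by omega) (not_sq_mod8 (Or.inl hmod))]
      congr 1
      refine Finset.card_bij (fun t _ => ((2 * j + 1, t.1, t.2) : ℕ × ℕ × ℕ)) ?_ ?_ ?_
      · rintro ⟨x, y⟩ ht
        simp only [mem_filter, mem_product, mem_Icc] at ht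
        rw [mem_filter, mem_uset]
        refine ⟨⟨hk1, ht.1.1.1, ht.1.2.1, hk3, ?_⟩, rfl⟩
        simp only
        have := ht.2
        have h3 : (2 * j + 1) ^ 2 = (2 * j + 1) * (2 * j + 1) := by ring
        rw [h3]; omega
      · rintro ⟨x, y⟩ _ ⟨x', y'⟩ _ h
        simp only [Prod.mk.injEq, true_and] at h
        rw [h.1, h.2]
      · rintro ⟨k', x, y⟩ ht
        rw [mem_filter, mem_uset] at ht
        simp only at ht
        obtain ⟨⟨h1, h2, h3, h4, h5⟩, h6⟩ := ht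
        subst h6
        refine ⟨(x, y), ?_, rfl⟩
        have h7 : (2 * j + 1) ^ 2 = (2 * j + 1) * (2 * j + 1) := by ring
        rw [h7] at h5
        have h8 : x ^ 2 + 4 * y ^ 2 = m - (2 * j + 1) * (2 * j + 1) := by omega
        simp only [mem_filter, mem_product, mem_Icc]
        refine ⟨⟨⟨h2, ?_⟩, ⟨h3, ?_⟩⟩, h8⟩
        · rw [← h8]; nlinarith
        · rw [← h8]; nlinarith
  rw [Finset.sum_congr rfl e2, ← Nat.cast_sum]
  rw [← Finset.card_eq_sum_card_fiberwise (f := fun t : ℕ × ℕ × ℕ => t.1)]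
  · exact uset_even hm8 hrep
  · intro t ht
    rw [mem_coe, mem_uset] at ht
    obtain ⟨h1, h2, h3, h4, h5⟩ := ht
    rw [mem_coe, mem_filter, mem_Icc]
    have h6 : 0 < t.2.1 ^ 2 := by positivity
    have h7 : t.1 ^ 2 = t.1 * t.1 := by ring
    refine ⟨⟨h1, ?_⟩, ?_⟩
    · nlinarith
    · rw [← h7]; omega

theorem nu2_mod4 {m p w : ℕ} (hp : p.Prime) (hp8 : p % 8 = 5) (hm : m = 2 * p * w)
    (hw : w % 4 = 3) (hpw : ¬ p ∣ w) : 4 ∣ nu 2 m := by
  have hpw4 : (p * w) % 4 = 3 := by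
    rw [Nat.mul_mod, hw, show p % 4 = 1 by omega]
  have hm8 : m % 8 = 6 := by
    have : m = 2 * (p * w) := by rw [hm]; ring
    omega
  have h1 := card_tset_split m
  have h2 := card_tset_diag m (by omega)
  have h3 := tset_expand hm8
  have h4 := card_div_m hp hp8 hm hw hpw
  have h5 := sigma_m hp hp8 hm hw hpw
  have h6 := gghh_even hp hp8 hm hw hpw
  have h7 := hhhh_even hp hp8 hm hw hpw
  rw [ZMod.natCast_eq_zero_iff] at h6 h7
  obtain ⟨a, ha⟩ := h6
  obtain ⟨b, hb⟩ := h7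
  obtain ⟨c, hc⟩ := h5
  rw [ha, hb] at h3
  rw [h4, hc] at h2
  omega

end Pool.Agent.H312.Nu
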