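import Mathlib
import Pool.Agent.H312.Nu.Nu2
import Pool.Agent.H312.Nu.Gauss

set_option autoImplicit false

namespace Pool.Agent.H312.Nu

open Finset

theorem PP_coeff (m : ℕ) :
    PowerSeries.coeff m PP = ∑ P : Nat.Partition m, (2 : ℤ) ^ P.parts.toFinset.card := by
  unfold PP
  rw [Nat.Partition.coeff_genFun]
  refine Finset.sum_congr rfl fun P _ => ?_
  rw [Finsupp.prod, Finset.prod_const, Multiset.toFinsupp_support]

theorem two_pow_mod (c : ℕ) : (2 : ZMod 16) ^ c = (if c = 0 then 1 else 0)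
    + 2 * (if c = 1 then 1 else 0) + 4 * (if c = 2 then 1 else 0)
    + 8 * (if c = 3 then 1 else 0) := by
  rcases lt_or_ge c 4 with h | h
  · interval_cases c <;> decide
  · obtain ⟨e, rfl⟩ := Nat.exists_eq_add_of_le h
    rw [pow_add, show (2 : ZMod 16) ^ 4 = 0 by decide, zero_mul]
    rw [if_neg (by omega), if_neg (by omega), if_neg (by omega), if_neg (by omega)]
    simp

theorem pbar_mod (m : ℕ) : ((PowerSeries.coeff m PP : ℤ) : ZMod 16)
    = nu 0 m + 2 * nu 1 m + 4 * nu 2 m + 8 * nu 3 m := by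
  rw [PP_coeff]
  push_cast
  rw [Finset.sum_congr rfl fun P _ => two_pow_mod P.parts.toFinset.card]
  rw [Finset.sum_add_distrib, Finset.sum_add_distrib, Finset.sum_add_distrib,
    ← Finset.mul_sum, ← Finset.mul_sum, ← Finset.mul_sum]
  simp only [Finset.sum_boole]
  rfl

theorem nu_zero {m : ℕ} (hm : m ≠ 0) : nu 0 m = 0 := by
  unfold nu
  rw [Finset.card_eq_zero, Finset.filter_eq_empty_iff]
  intro P _ h
  rw [Finset.card_eq_zero, Multiset.toFinset_eq_empty] at h
  have := P.parts_sum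
  rw [h] at this
  simp at this
  exact hm this.symm

theorem nu_one {m : ℕ} (hm : m ≠ 0) : nu 1 m = m.divisors.card := by
  classical
  unfold nu
  rw [← Finset.card_image_of_injective (f := Nat.Partition.parts) (univ.filter _)
    (fun P Q h => Nat.Partition.ext h)]
  have hinj : Set.InjOn (fun x : ℕ => Multiset.replicate (m / x) x) (m.divisors : Set ℕ) := by
    intro x hx y hy h
    simp only at h
    have hx' : 0 < m / x := Nat.div_pos (Nat.divisor_le hx) (Nat.pos_of_mem_divisors hx)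
    have h1 : x ∈ Multiset.replicate (m / y) y := by
      rw [← h, Multiset.mem_replicate]; exact ⟨by omega, rfl⟩
    exact (Multiset.mem_replicate.mp h1).2
  rw [← Finset.card_image_of_injOn hinj]
  congr 1
  ext s
  rw [mem_image, mem_image]
  constructor
  · rintro ⟨P, hP, rfl⟩
    rw [mem_filter] at hP
    obtain ⟨x, hx⟩ := Finset.card_eq_one.mp hP.2
    have hsum := Multiset.toFinset_sum_count_nsmul_eq P.parts
    rw [hx, Finset.sum_singleton, Multiset.nsmul_singleton] at hsum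
    have hx1 : x ∈ P.parts := by rw [← Multiset.mem_toFinset, hx]; simp
    have hx0 := P.parts_pos hx1
    have h2 := P.parts_sum
    rw [← hsum, Multiset.sum_replicate, smul_eq_mul] at h2
    refine ⟨x, Nat.mem_divisors.mpr ⟨⟨_, by rw [← h2, mul_comm]⟩, hm⟩, ?_⟩
    have h3 : m / x = Multiset.count x P.parts := by
      exact Nat.div_eq_of_eq_mul_left hx0 h2.symm
    simp only [h3]
    exact hsum
  · rintro ⟨x, hx, rfl⟩
    have hx' : 0 < m / x := Nat.div_pos (Nat.divisor_le hx) (Nat.pos_of_mem_divisors hx)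
    refine ⟨⟨Multiset.replicate (m / x) x, ?_, ?_⟩, ?_, rfl⟩
    · intro i hi
      rw [Multiset.eq_of_mem_replicate hi]
      exact Nat.pos_of_mem_divisors hx
    · rw [Multiset.sum_replicate, smul_eq_mul]
      exact Nat.div_mul_cancel (Nat.mem_divisors.mp hx).1
    · rw [mem_filter]
      refine ⟨mem_univ _, ?_⟩
      simp only [Multiset.toFinset_replicate]
      rw [if_neg (by omega)]
      simp

/-- triples of squares -/
def cset (N m : ℕ) : Finset (ℕ × ℕ × ℕ) :=
  (range N ×ˢ range N ×ˢ range N).filter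
    (fun t => (t.1 + 1) ^ 2 + (t.2.1 + 1) ^ 2 + (t.2.2 + 1) ^ 2 = m)

section
open PowerSeries

theorem term_coeff (a A m : ℕ) :
    coeff m ((-1 : PowerSeries ℤ) ^ a * X ^ A) = if m = A then (-1) ^ a else 0 := by
  have : (-1 : PowerSeries ℤ) ^ a = C ((-1) ^ a) := by simp
  rw [this, coeff_C_mul_X_pow]

theorem coeff_SS (N m : ℕ) (hm : ¬ IsSquare m) : coeff m (SS (X : PowerSeries ℤ) N) = 0 := by
  unfold SS
  rw [map_sum]
  refine Finset.sum_eq_zero fun s _ => ?_
  rw [term_coeff, if_neg]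
  intro h
  exact hm ⟨s + 1, by rw [h, sq]⟩

theorem coeff_SS2 (N m : ℕ) (hm : ∀ a b : ℕ, a ^ 2 + b ^ 2 ≠ m) :
    coeff m (SS (X : PowerSeries ℤ) N * SS X N) = 0 := by
  unfold SS
  rw [Finset.sum_mul_sum, map_sum]
  refine Finset.sum_eq_zero fun s _ => ?_
  rw [map_sum]
  refine Finset.sum_eq_zero fun t _ => ?_
  have : (-1 : PowerSeries ℤ) ^ (s + 1) * X ^ (s + 1) ^ 2 * ((-1) ^ (t + 1) * X ^ (t + 1) ^ 2)
      = (-1) ^ (s + 1 + (t + 1)) * X ^ ((s + 1) ^ 2 + (t + 1) ^ 2) := by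
    rw [pow_add, pow_add]; ring
  rw [this, term_coeff, if_neg]
  intro h
  exact hm _ _ h.symm

theorem coeff_SS3 (N m : ℕ) :
    ((coeff m (SS (X : PowerSeries ℤ) N * SS X N * SS X N) : ℤ) : ZMod 2)
      = ((cset N m).card : ZMod 2) := by
  have h1 : SS (X : PowerSeries ℤ) N * SS X N * SS X N
      = ∑ a ∈ range N, ∑ b ∈ range N, ∑ c ∈ range N,
        (-1) ^ (a + 1 + (b + 1) + (c + 1)) * X ^ ((a + 1) ^ 2 + (b + 1) ^ 2 + (c + 1) ^ 2) := by
    unfold SS
    rw [Finset.sum_mul_sum, Finset.sum_mul]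
    refine Finset.sum_congr rfl fun a _ => ?_
    rw [Finset.sum_mul_sum]
    refine Finset.sum_congr rfl fun b _ => ?_
    refine Finset.sum_congr rfl fun c _ => ?_
    rw [pow_add (-1), pow_add (-1), pow_add X, pow_add X]; ring
  rw [h1]
  simp only [map_sum, term_coeff]
  push_cast
  unfold cset
  rw [← Finset.sum_boole, Finset.sum_product]
  refine Finset.sum_congr rfl fun a _ => ?_
  rw [Finset.sum_product]
  refine Finset.sum_congr rfl fun b _ => ?_
  refine Finset.sum_congr rfl fun c _ => ?_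
  have h2 : (-1 : ZMod 2) = 1 := rfl
  simp only [h2, one_pow]
  by_cases h : m = (a + 1) ^ 2 + (b + 1) ^ 2 + (c + 1) ^ 2
  · rw [if_pos h, if_pos h.symm]
  · rw [if_neg h, if_neg (fun h' => h h'.symm)]

/-- key congruence modulo 16 -/
theorem pbar_formula {m : ℕ} (hm : m % 8 = 6) : ∃ N, m ≤ N ∧ ∃ u v : ℤ,
    coeff m PP = 16 * u - 8 * v ∧ ((v : ℤ) : ZMod 2) = ((cset N m).card : ZMod 2) := by
  obtain ⟨N, hN, hdvd⟩ := PP_theta m
  refine ⟨N, hN, coeff m (PP * SS (X : PowerSeries ℤ) N ^ 4),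
    coeff m (SS (X : PowerSeries ℤ) N * SS X N * SS X N), ?_, coeff_SS3 N m⟩
  obtain ⟨U, hU⟩ := hdvd
  set S := SS (X : PowerSeries ℤ) N with hS
  have h1 : PP - 16 * (PP * S ^ 4) = 1 - 2 * S + 4 * (S * S) - 8 * (S * S * S)
      + X ^ (m + 1) * (U * (1 - 2 * S + 4 * (S * S) - 8 * (S * S * S))) := by
    linear_combination (1 - 2 * S + 4 * (S * S) - 8 * (S * S * S)) * hU
  have h2 := congrArg (coeff m) h1
  have e0 : coeff m (X ^ (m + 1) * (U * (1 - 2 * S + 4 * (S * S) - 8 * (S * S * S)))) = 0 := by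
    rw [coeff_X_pow_mul', if_neg (by omega)]
  have e1 : coeff m S = 0 := coeff_SS N m (not_sq_mod8 (Or.inr hm))
  have e2 : coeff m (S * S) = 0 := by
    refine coeff_SS2 N m ?_
    intro a b h
    have a1 : a % 8 < 8 := Nat.mod_lt _ (by norm_num)
    have a2 : b % 8 < 8 := Nat.mod_lt _ (by norm_num)
    rw [← h, Nat.add_mod, Nat.pow_mod a, Nat.pow_mod b] at hm
    interval_cases (a % 8) <;> interval_cases (b % 8) <;> simp at hm
  have c16 : (16 : PowerSeries ℤ) = C 16 := by simp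
  have c2 : (2 : PowerSeries ℤ) = C 2 := by simp
  have c4 : (4 : PowerSeries ℤ) = C 4 := by simp
  have c8 : (8 : PowerSeries ℤ) = C 8 := by simp
  rw [map_sub, map_add, e0, map_sub, map_add, map_sub, c16, coeff_C_mul, c2, coeff_C_mul, e1, c4,
    coeff_C_mul, e2, c8, coeff_C_mul, coeff_one, if_neg (by omega)] at h2
  linarith

end

theorem cset_even {m N : ℕ} (hrep : ∀ x z : ℕ, x ^ 2 + 2 * z ^ 2 ≠ m) :
    ((cset N m).card : ZMod 2) = 0 := by
  classical
  rw [card_modTwo_of_involution (cset N m) (fun t => (t.2.1, t.1, t.2.2))]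
  · have : (cset N m).filter (fun t => (t.2.1, t.1, t.2.2) = t) = ∅ := by
      rw [Finset.filter_eq_empty_iff]
      rintro ⟨x, y, z⟩ ht h
      rw [cset, mem_filter] at ht
      simp only [Prod.mk.injEq] at h ht
      apply hrep (z + 1) (x + 1)
      rw [← ht.2, h.1]; ring
    rw [this]; simp
  · rintro ⟨x, y, z⟩ ht
    rw [cset, mem_filter, mem_product, mem_product] at ht ⊢
    simp only at ht ⊢
    obtain ⟨⟨h1, h2, h3⟩, h4⟩ := ht
    exact ⟨⟨h2, h1, h3⟩, by linarith⟩
  · rintro ⟨x, y, z⟩ _; rfl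

theorem nu3_even {m p w : ℕ} (hp : p.Prime) (hp8 : p % 8 = 5) (hm : m = 2 * p * w)
    (hw : w % 4 = 3) (hpw : ¬ p ∣ w) : 2 ∣ nu 3 m := by
  have hpw4 : (p * w) % 4 = 3 := by
    rw [Nat.mul_mod, hw, show p % 4 = 1 by omega]
  have hm8 : m % 8 = 6 := by
    have : m = 2 * (p * w) := by rw [hm]; ring
    omega
  obtain ⟨N, hN, u, v, h1, h2⟩ := pbar_formula hm8
  rw [cset_even (no_rep hp hp8 hm hpw), ZMod.intCast_zmod_eq_zero_iff_dvd] at h2
  obtain ⟨v', hv'⟩ := h2
  have h3 := pbar_mod m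
  rw [h1, hv'] at h3
  rw [nu_zero (by omega), nu_one (by omega), card_div_m hp hp8 hm hw hpw] at h3
  obtain ⟨c, hc⟩ := nu2_mod4 hp hp8 hm hw hpw
  rw [hc] at h3
  have h4 : ((8 * nu 3 m : ℕ) : ZMod 16) = 0 := by
    push_cast at h3 ⊢
    have e16 : (16 : ZMod 16) = 0 := rfl
    linear_combination -h3 + (u - v' - (hh w : ZMod 16) - c) * e16
  rw [ZMod.natCast_eq_zero_iff] at h4
  omega

end Pool.Agent.H312.Nu
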